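import Pool.Agent.H25.DP.Targets3
import Pool.Agent.H25.DP.Basic

/-!
# Two dilations: module IM (the Fourier transform of the bump)
-/

set_option autoImplicit false

open Complex MeasureTheory Set

namespace Pool.Agent.H81.DP.IM

open Pool.Agent.H25.DP

lemma continuous_om' : Continuous om' := by unfold om'; fun_prop

lemma continuous_om'' : Continuous om'' := by unfold om''; fun_prop

/-- The scaled variable lies in `[0, 1]`. -/
lemma scaled_mem {H W u : ℝ} (hW : 0 < W) (hu : u ∈ Set.uIoc H (H + W)) :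
    0 ≤ (u - H) / W ∧ (u - H) / W ≤ 1 := by
  rw [Set.uIoc_of_le (by linarith), Set.mem_Ioc] at hu
  refine ⟨div_nonneg (by linarith [hu.1]) hW.le, ?_⟩
  rw [div_le_one hW]
  linarith [hu.2]

lemma hasDerivAt_scaled (H W u : ℝ) : HasDerivAt (fun u : ℝ => (u - H) / W) (1 / W) u :=
  ((hasDerivAt_id u).sub_const H).div_const W

/-- The derivative of the bump in the window. -/
lemma hasDerivAt_f (H W u : ℝ) :
    HasDerivAt (fun u : ℝ => (om ((u - H) / W) : ℂ)) ((om' ((u - H) / W) * (1 / W) : ℝ) : ℂ) u :=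
  ((hasDerivAt_om _).comp u (hasDerivAt_scaled H W u)).ofReal_comp

/-- The second derivative of the bump in the window. -/
lemma hasDerivAt_f' (H W u : ℝ) :
    HasDerivAt (fun u : ℝ => ((om' ((u - H) / W) * (1 / W) : ℝ) : ℂ))
      ((om'' ((u - H) / W) * (1 / W) * (1 / W) : ℝ) : ℂ) u :=
  (((hasDerivAt_om' _).comp u (hasDerivAt_scaled H W u)).mul_const (1 / W)).ofReal_comp

/-- The derivative of the exponential. -/
lemma hasDerivAt_e (Δ u : ℝ) :
    HasDerivAt (fun u : ℝ => cexp ((Δ * u : ℝ) * I)) (cexp ((Δ * u : ℝ) * I) * (Δ * I)) u := by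
  have h1 : HasDerivAt (fun u : ℝ => ((Δ * u : ℝ) : ℂ) * I) (Δ * I) u := by
    have h2 : HasDerivAt (fun u : ℝ => Δ * u) Δ u := by
      simpa using (hasDerivAt_id u).const_mul Δ
    exact h2.ofReal_comp.mul_const I
  exact h1.cexp

lemma continuous_e (Δ : ℝ) : Continuous fun u : ℝ => cexp ((Δ * u : ℝ) * I) := by fun_prop

lemma norm_e (Δ u : ℝ) : ‖cexp ((Δ * u : ℝ) * I)‖ = 1 := Complex.norm_exp_ofReal_mul_I _

theorem im : T_IM := by
  refine ⟨96, by norm_num, fun H W Δ hW => ⟨?_, fun hΔ => ?_⟩⟩
  · have h := intervalIntegral.norm_integral_le_of_norm_le_const (a := H) (b := H + W) (C := 96)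
      (f := fun u : ℝ => (om ((u - H) / W) : ℂ) * cexp ((Δ * u : ℝ) * I)) (fun u hu => by
        obtain ⟨h0, h1⟩ := scaled_mem hW hu
        rw [norm_mul, norm_e, mul_one, Complex.norm_real, Real.norm_eq_abs]
        linarith [abs_om_le h0 h1])
    rwa [show |H + W - H| = W by rw [add_sub_cancel_left, abs_of_pos hW]] at h
  · have hΔI : (Δ : ℂ) * I ≠ 0 := mul_ne_zero (by exact_mod_cast hΔ) I_ne_zero
    have hv : ∀ u : ℝ, HasDerivAt (fun u : ℝ => cexp ((Δ * u : ℝ) * I) / (Δ * I))
        (cexp ((Δ * u : ℝ) * I)) u := fun u => by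
      have h := (hasDerivAt_e Δ u).div_const ((Δ : ℂ) * I)
      rwa [mul_div_cancel_right₀ _ hΔI] at h
    have hw : ∀ u : ℝ, HasDerivAt (fun u : ℝ => cexp ((Δ * u : ℝ) * I) / (Δ * I) / (Δ * I))
        (cexp ((Δ * u : ℝ) * I) / (Δ * I)) u := fun u => (hv u).div_const _
    have c1 : Continuous fun u : ℝ => (u - H) / W := by fun_prop
    have i1 : IntervalIntegrable (fun u : ℝ => ((om' ((u - H) / W) * (1 / W) : ℝ) : ℂ)) volume
        H (H + W) :=
      (Complex.continuous_ofReal.comp
        ((continuous_om'.comp c1).mul continuous_const)).intervalIntegrable _ _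
    have i2 : IntervalIntegrable (fun u : ℝ => ((om'' ((u - H) / W) * (1 / W) * (1 / W) : ℝ) : ℂ))
        volume H (H + W) :=
      (Complex.continuous_ofReal.comp
        (((continuous_om''.comp c1).mul continuous_const).mul
          continuous_const)).intervalIntegrable _ _
    have i3 : IntervalIntegrable (fun u : ℝ => cexp ((Δ * u : ℝ) * I)) volume H (H + W) :=
      (continuous_e Δ).intervalIntegrable _ _
    have i4 : IntervalIntegrable (fun u : ℝ => cexp ((Δ * u : ℝ) * I) / (Δ * I)) volume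
        H (H + W) := ((continuous_e Δ).div_const _).intervalIntegrable _ _
    have e0 : (H - H) / W = 0 := by rw [sub_self, zero_div]
    have e1 : (H + W - H) / W = 1 := by rw [add_sub_cancel_left, div_self hW.ne']
    have s1 := intervalIntegral.integral_mul_deriv_eq_deriv_mul (a := H) (b := H + W)
      (fun u _ => hasDerivAt_f H W u) (fun u _ => hv u) i1 i3
    have s2 := intervalIntegral.integral_mul_deriv_eq_deriv_mul (a := H) (b := H + W)
      (fun u _ => hasDerivAt_f' H W u) (fun u _ => hw u) i2 i4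
    rw [e0, e1, om_zero, om_one] at s1
    rw [e0, e1, om'_zero, om'_one] at s2
    simp only [Complex.ofReal_zero, zero_mul, sub_zero, zero_sub] at s1 s2
    rw [s1, s2, neg_neg]
    have h := intervalIntegral.norm_integral_le_of_norm_le_const (a := H) (b := H + W)
      (C := 96 / W ^ 2 * (1 / Δ ^ 2))
      (f := fun u : ℝ => ((om'' ((u - H) / W) * (1 / W) * (1 / W) : ℝ) : ℂ) *
        (cexp ((Δ * u : ℝ) * I) / (Δ * I) / (Δ * I))) (fun u hu => by
        obtain ⟨h0, h1⟩ := scaled_mem hW hu
        rw [norm_mul, Complex.norm_real, Real.norm_eq_abs, norm_div, norm_div, norm_e, norm_mul,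
          Complex.norm_I, mul_one, Complex.norm_real, Real.norm_eq_abs, div_div, ← sq, sq_abs]
        refine mul_le_mul_of_nonneg_right ?_ (by positivity)
        rw [abs_mul, abs_mul, abs_of_pos (by positivity : (0 : ℝ) < 1 / W)]
        have h2 : |om'' ((u - H) / W)| * (1 / W) * (1 / W) = |om'' ((u - H) / W)| / W ^ 2 := by
          field_simp
        rw [h2]
        exact div_le_div_of_nonneg_right (abs_om''_le h0 h1) (by positivity))
    refine h.trans (le_of_eq ?_)
    rw [add_sub_cancel_left, abs_of_pos hW]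
    have := hW.ne'
    field_simp

end Pool.Agent.H81.DP.IM
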