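import Pool.Agent.H25.DP.Targets3
import Pool.Agent.H48.DL.Ord

/-!
# Two dilations: module D3 (many exceptional zeros for Dirichlet `L`-functions)
-/

set_option autoImplicit false

open Complex MeasureTheory Set Filter Topology

namespace Pool.Agent.H81.DP.D3

open Pool.Agent.H25.DP Pool.Agent.H25.DL Pool.Agent.H48.DL Pool.Agent.H23.GLH

lemma prF_d (P Q : LF) (a τ : ℝ) (ha : 0 < a) (hP : P.n = 1) (hQ : Q.n = 1) :
    (prF P Q a τ ha).d = a - 1 := by
  change ∑ _i : Unit, a * (P.n : ℝ) - ∑ _j : Unit, (1 : ℝ) * (Q.n : ℝ) = a - 1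
  rw [hP, hQ]
  simp

theorem d3 (h1 : T_D2a) (h2 : T_FI5) (h3 : T_DFL) (h4 : T_DND) (h5 : T_DI2) : T_D3 := by
  intro ψ χ a τ ε h2a ha hε
  rcases h2a.eq_or_lt with rfl | hlt
  · exact h1 ψ χ τ ε hε
  have ha0 : 0 < a := by linarith
  obtain ⟨P, hPn, hPnum, hPden, hPA, hPh⟩ := h5 ψ
  obtain ⟨Q, hQn, hQnum, hQden, hQA, hQh⟩ := h5 χ
  set F := prF P Q a τ ha0 with hF
  have hFd : F.d = a - 1 := prF_d P Q a τ ha0 hPn hQn
  have hden : DenF F.f := h3 P Q a τ ha0 (by linarith) (h4 χ Q hQn hQh)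
  obtain ⟨T₀, hT₀⟩ := h2 F a ε (by rw [hFd]; linarith) (by rw [hFd]; linarith) h2a
    (fun _ => Or.inl rfl) (fun _ => Or.inr rfl) hden hε
  refine ⟨max T₀ (|τ| + 1), fun T hT => ?_⟩
  have hT1 : T₀ ≤ T := (le_max_left _ _).trans hT
  have hT2 : |τ| + 1 ≤ T := (le_max_right _ _).trans hT
  have hTpos : 0 < T := by linarith [abs_nonneg τ]
  obtain ⟨Z, hZ, hz⟩ := hT₀ T hT1
  refine ⟨Z, hZ, fun z hzZ => ?_⟩
  obtain ⟨z1, z2, z3⟩ := hz z hzZ
  refine ⟨z1, z2, ?_⟩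
  have hp : ∀ i, 0 < (wl (F.p i).r (F.p i).τ z).im := by
    intro i
    change 0 < (wl a τ z).im
    rw [wl_im]
    have := neg_abs_le τ
    nlinarith
  have hq : ∀ j, 0 < (wl (F.q j).r (F.q j).τ z).im := by
    intro j
    change 0 < (wl 1 0 z).im
    rw [wl_im]
    linarith
  have hN := order_N F z hp hq
  have hM := order_M F z hp hq
  have hone : ∀ w : ℂ, analyticOrderAt (fun _ : ℂ => (1 : ℂ)) w = 0 := fun w =>
    analyticOrderAt_eq_zero.2 (Or.inr one_ne_zero)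
  have hN' : analyticOrderAt F.N z = analyticOrderAt ψ.L (wl a τ z) := by
    rw [hN]
    change (∑ _i : Unit, analyticOrderAt P.num (wl a τ z)) +
      ∑ _j : Unit, analyticOrderAt Q.den (wl 1 0 z) = _
    rw [hPnum, hQden]
    simp [hone]
  have hwl : wl 1 0 z = z := by
    unfold wl
    push_cast
    ring
  have hM' : analyticOrderAt F.M z = analyticOrderAt χ.L z := by
    rw [hM]
    change (∑ _i : Unit, analyticOrderAt P.den (wl a τ z)) +
      ∑ _j : Unit, analyticOrderAt Q.num (wl 1 0 z) = _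
    rw [hPden, hQnum, hwl]
    simp [hone]
  have h7 : analyticOrderAt F.N z < analyticOrderAt F.M z := z3
  rwa [hN', hM'] at h7

end Pool.Agent.H81.DP.D3
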